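import Pool.Agent.Lib_MP_d03f2b_co.Seq

/-!
# The space of infinite graphs is not complete under the asymptotic spectrum distance

The class of graphs (at most continuum many vertices, finite clique covering number), the
asymptotic spectrum and the distance are defined in `Pool.Agent.Lib_MP_d03f2b_co.Defs`.

Outline.  Let `K n` be the disjoint union over all `c ≥ n` of the graphs `Sh c × K_3`, where
`Sh c` is the shift graph on the `c`-element subsets of a large finite set of natural numbers
(large enough that it is not `c`-colourable), and let `G n` be the complement of `K n`.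

* For `n ≤ m` the graph `G m` is below `G n`.  Conversely, a random linear order of the ground set
  makes the shift graph bipartite outside a set which contains every vertex with probability at
  most `2 / c`; hence finitely many partial cohomomorphisms from `G n` to `G m` cover every vertex
  with frequency at least `1 - 2 / n`, and `F (G n) ≤ F (G m) / (1 - 2 / n)` for every spectral
  point `F`.  So the sequence is Cauchy.
* The fractional packing number `fp` (a spectral point) tends to 2 along the sequence.
* The finite fractional clique cover number `fc` (a spectral point) is 3 on the whole sequence.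
* If `fp H ≤ 2` then the complement of `H` has no odd cycle, hence `H ≤ E_2` and `fc H ≤ 2`.
-/

set_option autoImplicit false

open Set Filter Topology Pool.Agent.AsympSpec

namespace Pool.Agent.Results.MP_d03f2b_co.NotComplete

/-- the sequence is Cauchy for the asymptotic spectrum distance -/
def IsCauchySequence (G : ℕ → GInf) : Prop :=
  ∀ ε : ℝ, 0 < ε → ∃ N : ℕ, ∀ m n : ℕ, N ≤ m → N ≤ n → specDist (G m) (G n) < ENNReal.ofReal ε

/-- the sequence converges to `H` in the asymptotic spectrum distance -/
def ConvergesTo (G : ℕ → GInf) (H : GInf) : Prop :=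
  Tendsto (fun n => specDist (G n) H) atTop (𝓝 0)

theorem le_of_dist (φ : Spectrum) (A B : GInf) (ε : ℝ) (hε : 0 ≤ ε)
    (h : specDist A B ≤ ENNReal.ofReal ε) : |φ.F A - φ.F B| ≤ ε := by
  have h1 : ENNReal.ofReal |φ.F A - φ.F B| ≤ ENNReal.ofReal ε :=
    (le_iSup (fun φ : Spectrum => ENNReal.ofReal |φ.F A - φ.F B|) φ).trans h
  exact (ENNReal.ofReal_le_ofReal_iff hε).1 h1

theorem dist_le_of (A B : GInf) (ε : ℝ) (h : ∀ φ : Spectrum, |φ.F A - φ.F B| ≤ ε) :
    specDist A B ≤ ENNReal.ofReal ε :=
  iSup_le fun φ => ENNReal.ofReal_le_ofReal (h φ)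

/-- the distance is finite -/
theorem specDist_lt_top (A B : GInf) : specDist A B < ⊤ := by
  obtain ⟨n, hn⟩ := A.cover
  obtain ⟨m, hm⟩ := B.cover
  refine lt_of_le_of_lt (dist_le_of A B (n + m) fun φ => ?_) ENNReal.ofReal_lt_top
  have h1 := φ.mono A (GInf.E n) hn
  have h2 := φ.mono B (GInf.E m) hm
  rw [φ.norm] at h1 h2
  have h3 := φ.nonneg A
  have h4 := φ.nonneg B
  rw [abs_le]
  constructor <;> linarith

theorem dist_Gr (n m : ℕ) (hn : 3 ≤ n) (hnm : n ≤ m) (φ : Spectrum) :
    |φ.F (Gr n) - φ.F (Gr m)| ≤ 6 / ((n : ℝ) - 2) := by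
  have hn0 : (3 : ℝ) ≤ n := by exact_mod_cast hn
  have h1 := φ.mono _ _ (Gr_anti hnm)
  have h2 := F_Gr_le φ n m hn
  have h3 := φ.mono _ _ (Gr_le_three m)
  rw [φ.norm] at h3
  have hq : 0 < 1 - 2 / (n : ℝ) := by
    rw [sub_pos, div_lt_one (by linarith)]
    linarith
  rw [le_div_iff₀ hq] at h2
  rw [abs_of_nonneg (by linarith), le_div_iff₀ (by linarith)]
  have h4 := φ.nonneg (Gr m)
  have e1 : (1 - 2 / (n : ℝ)) * n = n - 2 := by
    field_simp
  have h5 : φ.F (Gr n) * ((n : ℝ) - 2) ≤ φ.F (Gr m) * n := by
    rw [← e1, ← mul_assoc]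
    exact mul_le_mul_of_nonneg_right h2 (by linarith)
  push_cast at h3
  nlinarith

/-- **The metric space `(𝒢_∞, d)` is not complete**: some `d`-Cauchy sequence of graphs in the
class has no limit in the class. -/
theorem result : ∃ G : ℕ → GInf, IsCauchySequence G ∧ ¬ ∃ H : GInf, ConvergesTo G H := by
  refine ⟨fun n => Gr (n + 3), ?_, ?_⟩
  · intro ε hε
    obtain ⟨N, hN⟩ := exists_nat_gt (6 / ε)
    have hlim : ∀ k l : ℕ, N ≤ k → k ≤ l →
        specDist (Gr (k + 3)) (Gr (l + 3)) < ENNReal.ofReal ε ∧
        specDist (Gr (l + 3)) (Gr (k + 3)) < ENNReal.ofReal ε := by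
      intro k l hk hkl
      have hb : ∀ φ : Spectrum, |φ.F (Gr (k + 3)) - φ.F (Gr (l + 3))| ≤ 6 / ((k : ℝ) + 1) := by
        intro φ
        have := dist_Gr (k + 3) (l + 3) (by omega) (by omega) φ
        have e1 : (((k + 3 : ℕ) : ℝ) - 2) = (k : ℝ) + 1 := by push_cast; ring
        rwa [e1] at this
      have hk' : (N : ℝ) ≤ k := by exact_mod_cast hk
      have hlt : 6 / ((k : ℝ) + 1) < ε := by
        rw [div_lt_iff₀ (by positivity)]
        rw [div_lt_iff₀ hε] at hN
        nlinarith
      constructor
      · exact lt_of_le_of_lt (dist_le_of _ _ _ hb) ((ENNReal.ofReal_lt_ofReal_iff hε).2 hlt)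
      · refine lt_of_le_of_lt (dist_le_of _ _ _ fun φ => ?_)
          ((ENNReal.ofReal_lt_ofReal_iff hε).2 hlt)
        rw [abs_sub_comm]
        exact hb φ
    refine ⟨N, fun m n hm hn => ?_⟩
    rcases le_total m n with h | h
    · exact (hlim m n hm h).1
    · exact (hlim n m hn h).2
  · rintro ⟨H, hH⟩
    -- spectral points converge
    have hconv : ∀ φ : Spectrum, Tendsto (fun n : ℕ => φ.F (Gr (n + 3))) atTop (𝓝 (φ.F H)) := by
      intro φ
      rw [tendsto_iff_dist_tendsto_zero]
      rw [Metric.tendsto_atTop]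
      intro ε hε
      have h1 : ∀ᶠ n in atTop, specDist (Gr (n + 3)) H < ENNReal.ofReal (ε / 2) :=
        hH.eventually_lt_const (ENNReal.ofReal_pos.2 (by linarith))
      obtain ⟨N, hN⟩ := eventually_atTop.1 h1
      refine ⟨N, fun n hn => ?_⟩
      have h2 := le_of_dist φ _ _ (ε / 2) (by linarith) (hN n hn).le
      rw [Real.dist_eq, sub_zero, abs_of_nonneg dist_nonneg, Real.dist_eq]
      linarith
    -- the fractional packing number of `H` is at most 2
    have h2 : fp H.G ≤ 2 := by
      have hlim : Tendsto (fun n : ℕ => 2 / (1 - 2 / (((n + 3 : ℕ) : ℝ)))) atTop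
          (𝓝 (2 / (1 - 0))) := by
        refine Tendsto.div tendsto_const_nhds (tendsto_const_nhds.sub ?_) (by norm_num)
        exact (tendsto_const_div_atTop_nhds_zero_nat 2).comp (tendsto_add_atTop_nat 3)
      rw [sub_zero, div_one] at hlim
      exact le_of_tendsto_of_tendsto' (hconv fpPoint) hlim
        fun n => fp_Gr_le (n + 3) (by omega)
    -- so the finite fractional clique cover number is at most 2 as well
    have h3 : fc H.G ≤ 2 := by
      have := fc_mono H (GInf.E 2) (coLe_two_of_fp H h2)
      rw [fc_E] at this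
      exact_mod_cast this
    have h4 : 3 ≤ fc H.G :=
      ge_of_tendsto' (hconv fcPoint) fun n => three_le_fc (n + 3)
    linarith

end Pool.Agent.Results.MP_d03f2b_co.NotComplete
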